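import Pool.Agent.R822.TukeyCore

/-!
MP_849c2a: there is an omega-narrow uniform space `(X, 𝒰)` such that the neighbourhood filter of
the identity of the free topological group `F(X, 𝒰)` is not Tukey below `ω^ω × 𝒰^ω`.
-/

namespace Pool.Agent.Results.MP_849c2a_gt.NotTukeyBelow

open Filter Topology Uniformity Pool.Agent.R822.Tukey

/-- The uniform space `X` is `ω`-narrow. -/
def Narrow (X : Type) [UniformSpace X] : Prop :=
  ∀ U ∈ 𝓤 X, ∃ A : Set X, A.Countable ∧ ∀ x, ∃ a ∈ A, (a, x) ∈ U

/-- The symmetric entourages of `X`. -/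
def SymmEnt (X : Type) [UniformSpace X] : Set (Set (X × X)) :=
  {U | U ∈ 𝓤 X ∧ ∀ x y, (x, y) ∈ U → (y, x) ∈ U}

/-- There are an `ω`-narrow Hausdorff uniform space `X` and a topology `t` on the free group on
`X`, the finest group topology for which the canonical map is uniformly continuous with respect
to the two-sided uniformity (so that this is the free topological group `F(X, 𝒰)`), such that the
neighbourhoods of the identity, ordered by reverse inclusion, are not Tukey reducible to
`ω^ω × 𝒰^ω`. -/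
theorem result :
    ∃ (X : Type) (_ : UniformSpace X), Narrow X ∧ (∀ x y : X, (∀ U ∈ 𝓤 X, (x, y) ∈ U) → x = y) ∧
      ∃ t : TopologicalSpace (FreeGroup X), IsLeast (Tops X) t ∧
        ¬ TukeyLE (RevSets (@nhds _ t 1).sets) ((ℕ → ℕ) × (ℕ → RevSets (SymmEnt X))) := by
  refine ⟨Pts (Set ((ℕ → ℕ) × (ℕ → ℕ) → ℕ)), inferInstance, narrow, fun x y h => separated h,
    sInf (Tops _), isLeast_sInf _, ?_⟩
  refine core (isLeast_sInf _) ?_
    (fun f A => (f.1, fun k => ⟨R A.1 (f.2 k), R_mem A.2 _, fun x y h => R_symm h⟩)) ?_ ?_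
  · rw [Cardinal.mk_set]
    exact Cardinal.cantor _
  · intro f A B h
    refine ⟨le_rfl, fun k => ?_⟩
    exact R_mono h le_rfl
  · intro q
    have h1 : ∀ k, ∃ A : Set _, A.Countable ∧ ∃ n, R A n ⊆ (q.2 k).1 := fun k =>
      mem_uniformity.mp (q.2 k).2.1
    choose A hA n hn using h1
    refine ⟨(q.1, n), ⟨⋃ k, A k, Set.countable_iUnion hA⟩, le_rfl, fun k => ?_⟩
    exact (R_mono (Set.subset_iUnion A k) le_rfl).trans (hn k)

end Pool.Agent.Results.MP_849c2a_gt.NotTukeyBelow
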